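import Mathlib
import Pool.Agent.GenTop.RimCountable
import Pool.Agent.GenTop.Components

/-!
# Locally connected, normal, submetacompact spaces with small boundaries

Such a space is the topological sum of its components, and the components are Lindelöf.
-/

set_option autoImplicit false

open Topology Filter Set

namespace Pool.Agent.Results.MP_dab682_gt.LindelofComponents

universe u

/-- Every open cover has a sequence of open refinements (which are covers) such that every point
lies in only finitely many members of one of them. -/
def Submetacompact (X : Type u) [TopologicalSpace X] : Prop :=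
  ∀ 𝒰 : Set (Set X), (∀ u ∈ 𝒰, IsOpen u) → ⋃₀ 𝒰 = Set.univ →
    ∃ V : ℕ → Set (Set X),
      (∀ n, ∀ v ∈ V n, IsOpen v ∧ ∃ u ∈ 𝒰, v ⊆ u) ∧
      (∀ n, ⋃₀ V n = Set.univ) ∧
      (∀ x : X, ∃ n, {v ∈ V n | x ∈ v}.Finite)

/-- Some base consists of open sets with countably compact boundaries. -/
def RimCountablyCompact (X : Type u) [TopologicalSpace X] : Prop :=
  ∃ B : Set (Set X), TopologicalSpace.IsTopologicalBasis B ∧
    ∀ U ∈ B, IsCountablyCompact (frontier U)

/-- Let `X` be a locally connected, normal, submetacompact space with a base of open sets whose
boundaries are countably compact.  Then every component of `X` is open and Lindelöf (so `X` is a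
topological sum of connected Lindelöf spaces), and `X` is paracompact. -/
theorem result (X : Type u) [TopologicalSpace X] [LocallyConnectedSpace X] [T4Space X]
    (hsub : Submetacompact X) (hrim : RimCountablyCompact X) :
    (∀ x : X, IsOpen (connectedComponent x) ∧ IsLindelof (connectedComponent x)) ∧
      ParacompactSpace X := by
  have hpar : ParacompactSpace X := GenTop.paracompact_of_rimCountablyCompact hsub hrim
  obtain ⟨B, hB, hBc⟩ := hrim
  exact ⟨fun x => ⟨isOpen_connectedComponent, GenTop.isLindelof_connectedComponent
    ⟨B, hB, fun U hU => GenTop.isCompact_of_isCountablyCompact hsub isClosed_frontier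
      (hBc U hU)⟩ x⟩, hpar⟩

end Pool.Agent.Results.MP_dab682_gt.LindelofComponents
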